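import Pool.Agent.W873.RS.Stm

/-! Project RS (owner helper873), part FRZ. -/

set_option autoImplicit false

open MeasureTheory ProbabilityTheory Polynomial Filter Topology

namespace Pool.Agent.W509.RS.FRZ

open Pool.Agent.W873.RS

theorem card_add (p q : ℝ[X]) : (p + q).support.card ≤ p.support.card + q.support.card :=
  (Finset.card_le_card Polynomial.support_add).trans (Finset.card_union_le _ _)

theorem card_sum {ι : Type} (s : Finset ι) (f : ι → ℝ[X]) :
    (∑ i ∈ s, f i).support.card ≤ ∑ i ∈ s, (f i).support.card := by
  classical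
  induction s using Finset.induction_on with
  | empty => simp
  | insert a s ha ih =>
    rw [Finset.sum_insert ha, Finset.sum_insert ha]
    exact (card_add _ _).trans (Nat.add_le_add_left ih _)

theorem card_C_mul (a : ℝ) (p : ℝ[X]) : (C a * p).support.card ≤ p.support.card := by
  rw [← Polynomial.smul_eq_C_mul]
  exact Finset.card_le_card (Polynomial.support_smul a p)

theorem card_mono (a : ℝ) (k : ℕ) : (C a * X ^ k : ℝ[X]).support.card ≤ 1 :=
  (Finset.card_le_card (Polynomial.support_C_mul_X_pow' k a)).trans (by simp)

theorem main : Pool.Agent.W873.RS.FRZ := by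
  intro s A σ c h
  refine ⟨fun y => ?_, ?_, fun A σ z => ?_⟩
  · unfold frz
    refine (card_add _ _).trans (Nat.add_le_add_left ?_ _)
    refine (card_sum _ _).trans (Finset.sum_le_sum fun i _ => ?_)
    refine (card_C_mul _ _).trans ?_
    refine (card_sum _ _).trans ?_
    calc ∑ j ∈ A i, (C (σ i j ^ 2) * X ^ (2 * j) : ℝ[X]).support.card ≤ ∑ j ∈ A i, 1 :=
          Finset.sum_le_sum fun j _ => card_mono _ _
      _ = (A i).card := by simp
  · have e : Function.uncurry (fun (y : Fin s → ℝ) (x : ℝ) => (frz A σ c h y).eval x) =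
        fun p : (Fin s → ℝ) × ℝ => h.eval p.2 + ∑ i, (c i * p.1 i ^ 2) *
          ∑ j ∈ A i, σ i j ^ 2 * p.2 ^ (2 * j) := by
      funext p
      obtain ⟨y, x⟩ := p
      simp only [Function.uncurry_apply_pair, frz, eval_add, eval_finset_sum, eval_mul, eval_C,
        eval_pow, eval_X]
    rw [e]
    refine (h.continuous.measurable.comp measurable_snd).add ?_
    refine Finset.measurable_sum _ fun i _ => ?_
    refine Measurable.mul ?_ ?_
    · exact measurable_const.mul (((measurable_pi_apply i).comp measurable_fst).pow_const 2)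
    · exact Finset.measurable_sum _ fun j _ => measurable_const.mul (measurable_snd.pow_const _)
  · unfold lin
    refine (card_sum _ _).trans ?_
    calc ∑ j : A, (C (σ j * z j) * X ^ (j : ℕ) : ℝ[X]).support.card ≤ ∑ j : A, 1 :=
          Finset.sum_le_sum fun j _ => card_mono _ _
      _ = A.card := by simp

end Pool.Agent.W509.RS.FRZ
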